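import Pool.Agent.W192.HK.Parts

/-!
# Ray class characters
-/

set_option autoImplicit false

namespace Pool.Agent.W366.HK

open Pool.Agent.W192.HK

theorem cop_iff {R : Subring ℂ} (c : Ideal R) (α : R) :
    IsCoprime (sp α) c ↔ ∃ γ : R, α * γ - 1 ∈ c := by
  rw [Ideal.isCoprime_iff_exists]
  constructor
  · rintro ⟨i, hi, j, hj, h⟩
    obtain ⟨γ, rfl⟩ := Ideal.mem_span_singleton'.1 hi
    refine ⟨γ, ?_⟩
    have e : α * γ - 1 = -j := by
      rw [← h]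
      ring
    rw [e]
    exact c.neg_mem hj
  · rintro ⟨γ, h⟩
    refine ⟨γ * α, Ideal.mem_span_singleton'.2 ⟨γ, rfl⟩, -(α * γ - 1), c.neg_mem h, ?_⟩
    ring

theorem cop_ne {R : Subring ℂ} (c : Ideal R) (α : R) (h : IsCoprime (sp α) c) :
    ∃ γ : R, γ ≠ 0 ∧ α * γ - 1 ∈ c := by
  obtain ⟨γ, hγ⟩ := (cop_iff c α).1 h
  by_cases h0 : γ = 0
  · rw [h0, mul_zero, zero_sub] at hγ
    have h1 : (1 : R) ∈ c := by
      have := c.neg_mem hγ
      rwa [neg_neg] at this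
    refine ⟨1, one_ne_zero, ?_⟩
    rw [(Ideal.eq_top_iff_one c).2 h1]
    exact Submodule.mem_top
  · exact ⟨γ, h0, hγ⟩

theorem sp_mul {R : Subring ℂ} (α β : R) : sp (α * β) = sp α * sp β :=
  (Ideal.span_singleton_mul_span_singleton α β).symm

theorem rc_top {R : Subring ℂ} (c : Ideal R) (χ : Ideal R → ℂ) (h : RC c χ) : χ ⊤ = 1 := by
  have h1 : χ ⊤ ≠ 0 := by
    intro h0
    rcases (h.zero ⊤).1 h0 with h2 | h2
    · exact absurd h2 top_ne_bot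
    · apply h2
      rw [Ideal.isCoprime_iff_sup_eq]
      exact top_sup_eq c
  have h2 : χ ⊤ * χ ⊤ = χ ⊤ * 1 := by
    rw [← h.mul, Ideal.top_mul, mul_one]
  exact mul_left_cancel₀ h1 h2

theorem rc_per {R : Subring ℂ} (c : Ideal R) (χ : Ideal R → ℂ) (h : RC c χ) (α β : R)
    (hα : α ≠ 0) (hβ : β ≠ 0) (hab : α - β ∈ c) : χ (sp α) = χ (sp β) := by
  by_cases hc : IsCoprime (sp α) c
  · obtain ⟨γ, hγ0, hγ⟩ := cop_ne c α hc
    have hγ2 : β * γ - 1 ∈ c := by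
      have e : β * γ - 1 = (α * γ - 1) - γ * (α - β) := by ring
      rw [e]
      exact c.sub_mem hγ (c.mul_mem_left γ hab)
    have e1 := h.princ (α * γ) (mul_ne_zero hα hγ0) hγ
    have e2 := h.princ (β * γ) (mul_ne_zero hβ hγ0) hγ2
    rw [sp_mul, h.mul] at e1 e2
    have h0 : χ (sp γ) ≠ 0 := by
      intro h0
      rw [h0, mul_zero] at e1
      exact zero_ne_one e1
    exact mul_right_cancel₀ h0 (e1.trans e2.symm)
  · have hc2 : ¬ IsCoprime (sp β) c := by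
      intro hc2
      apply hc
      obtain ⟨γ, hγ⟩ := (cop_iff c β).1 hc2
      refine (cop_iff c α).2 ⟨γ, ?_⟩
      have e : α * γ - 1 = (β * γ - 1) + γ * (α - β) := by ring
      rw [e]
      exact c.add_mem hγ (c.mul_mem_left γ hab)
    rw [(h.zero _).2 (Or.inr hc), (h.zero _).2 (Or.inr hc2)]

theorem rc_pow {R : Subring ℂ} (c : Ideal R) (χ : Ideal R → ℂ) (h : RC c χ) (I : Ideal R)
    (n : ℕ) : χ (I ^ n) = χ I ^ n := by
  induction n with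
  | zero =>
    rw [pow_zero, pow_zero, Ideal.one_eq_top]
    exact rc_top c χ h
  | succ n ih => rw [pow_succ, h.mul, ih, pow_succ]

theorem unit_pow {R : Subring ℂ} (c : Ideal R) [Finite (R ⧸ c)] (α : R)
    (h : IsCoprime (sp α) c) : α ^ Nat.card (R ⧸ c)ˣ - 1 ∈ c := by
  obtain ⟨γ, hγ⟩ := (cop_iff c α).1 h
  have h1 : Ideal.Quotient.mk c α * Ideal.Quotient.mk c γ = 1 := by
    rw [← map_mul, ← map_one (Ideal.Quotient.mk c), Ideal.Quotient.mk_eq_mk_iff_sub_mem]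
    exact hγ
  have hu : IsUnit (Ideal.Quotient.mk c α) := IsUnit.of_mul_eq_one _ h1
  obtain ⟨u, hu⟩ := hu
  have h2 : u ^ Nat.card (R ⧸ c)ˣ = 1 := pow_card_eq_one'
  have h3 := congrArg (fun v : (R ⧸ c)ˣ => (v : R ⧸ c)) h2
  simp only [Units.val_pow_eq_pow_val, Units.val_one] at h3
  rw [hu, ← map_pow, ← map_one (Ideal.Quotient.mk c), Ideal.Quotient.mk_eq_mk_iff_sub_mem] at h3
  exact h3

theorem rc_ord (h1 : H_BASIC) (h2 : H_CLS) (R : Subring ℂ) (ω : ℂ) (hR : QR R ω) (c : Ideal R)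
    (χ : Ideal R → ℂ) (h : RC c χ) :
    ∃ n : ℕ, 0 < n ∧ ∀ I : Ideal R, χ I ≠ 0 → χ I ^ n = 1 := by
  obtain ⟨g, hg, hI, -⟩ := h2 R ω hR
  have : Finite (R ⧸ c) := (h1 R ω hR).1 c h.ne
  refine ⟨g * Nat.card (R ⧸ c)ˣ, Nat.mul_pos hg Nat.card_pos, fun I hI0 => ?_⟩
  obtain ⟨α, hα⟩ := hI I
  have e1 : χ (sp α) = χ I ^ g := by
    rw [← hα]
    exact rc_pow c χ h I g
  have e2 : χ (sp α) ≠ 0 := by
    rw [e1]
    exact pow_ne_zero _ hI0
  have e3 : ¬ (sp α = ⊥ ∨ ¬ IsCoprime (sp α) c) := fun h' => e2 ((h.zero _).2 h')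
  push Not at e3
  have hα0 : α ≠ 0 := by
    intro h0
    apply e3.1
    rw [h0]
    exact Ideal.span_singleton_eq_bot.2 rfl
  have e4 := h.princ (α ^ Nat.card (R ⧸ c)ˣ) (pow_ne_zero _ hα0) (unit_pow c α e3.2)
  have e5 : sp (α ^ Nat.card (R ⧸ c)ˣ) = sp α ^ Nat.card (R ⧸ c)ˣ :=
    (Ideal.span_singleton_pow α _).symm
  rw [e5, rc_pow c χ h, e1, ← pow_mul] at e4
  exact e4

/-- FPR. -/
theorem h_fpr (h1 : H_BASIC) (h2 : H_CLS) : H_FPR := by
  intro R ω hR c χ h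
  have h3 := rc_ord h1 h2 R ω hR c χ h
  refine ⟨fun α β hα hβ hab => rc_per c χ h α β hα hβ hab, fun I hI => ?_, rc_top c χ h, ?_⟩
  · obtain ⟨n, hn, hn2⟩ := h3
    exact Complex.norm_eq_one_of_pow_eq_one (hn2 I hI) hn.ne'
  · classical
    refine ⟨Nat.find h3, ?_, ?_, ?_⟩
    · exact (Nat.find_spec h3).1
    · exact (Nat.find_spec h3).2
    · intro n hn hn2
      exact Nat.find_min' h3 ⟨hn, hn2⟩

end Pool.Agent.W366.HK
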